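import Pool.Agent.helper70.BND.SpecH

/-! Project bnd (MP_376aaf_an), block H, row STG. -/

set_option autoImplicit false

open scoped Topology
open Finset

namespace Pool.Agent.BND.EX

theorem STG_pow (hSTN : PVH.STN_stmt) (H : Type) [AddCommGroup H] (P : H → Prop) (g : H)
    (hS : PVH.SOG P g) (x : H) (hx : P x) (t : ℕ) :
    ∀ (n : ℕ) (v : ℕ → H), 0 < n → (∀ j, j < n → P (v j)) →
    ∃ (n' : ℕ) (w : ℕ → H) (M : ℕ → ℕ → ℕ), 0 < n' ∧ (∀ j', j' < n' → P (w j')) ∧
      (∀ j, j < n → v j = ∑ j' ∈ range n', M j' j • w j') ∧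
      (∀ j' j, j' < n' → j < n → 3 ^ t ≤ M j' j) ∧
      (∀ z : ℕ → ℤ, ∑ j ∈ range n, z j • v j = 0 → ∀ j', j' < n' →
        ∑ j ∈ range n, (M j' j : ℤ) * z j = 0) ∧
      ∃ c : ℕ → ℕ, x = ∑ j' ∈ range n', c j' • w j' := by
  induction t with
  | zero =>
    intro n v hn hv
    obtain ⟨n', w, M, h1, h2, h3, h4, h5, h6⟩ := hSTN H P g hS n v hn hv x hx
    exact ⟨n', w, M, h1, h2, h3, fun j' j hj' hj => le_trans (by norm_num) (h4 j' j hj' hj), h5, h6⟩
  | succ t ih =>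
    intro n v hn hv
    obtain ⟨n1, w1, M1, h1, h2, h3, h4, h5, -⟩ := hSTN H P g hS n v hn hv x hx
    obtain ⟨n', w, M2, h1', h2', h3', h4', h5', h6'⟩ := ih n1 w1 h1 h2
    refine ⟨n', w, fun j' j => ∑ i ∈ range n1, M2 j' i * M1 i j, h1', h2', fun j hj => ?_,
      fun j' j hj' hj => ?_, fun z hz j' hj' => ?_, h6'⟩
    · rw [h3 j hj]
      have e1 : ∀ i ∈ range n1, M1 i j • w1 i =
          ∑ j' ∈ range n', (M2 j' i * M1 i j) • w j' := by
        intro i hi
        rw [h3' i (mem_range.1 hi), smul_sum]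
        refine sum_congr rfl fun j' _ => ?_
        rw [smul_smul, Nat.mul_comm]
      rw [sum_congr rfl e1, sum_comm]
      exact sum_congr rfl fun j' _ => (sum_smul).symm
    · have e1 : M2 j' 0 * M1 0 j ≤ ∑ i ∈ range n1, M2 j' i * M1 i j :=
        single_le_sum (f := fun i => M2 j' i * M1 i j) (fun i _ => Nat.zero_le _)
          (mem_range.2 h1)
      refine le_trans ?_ e1
      rw [pow_succ]
      exact Nat.mul_le_mul (h4' j' 0 hj' h1) (h4 0 j h1 hj)
    · have e1 : ∀ j ∈ range n, ((∑ i ∈ range n1, M2 j' i * M1 i j : ℕ) : ℤ) * z j =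
          ∑ i ∈ range n1, (M2 j' i : ℤ) * ((M1 i j : ℤ) * z j) := by
        intro j _
        push_cast
        rw [sum_mul]
        exact sum_congr rfl fun i _ => by ring
      rw [sum_congr rfl e1, sum_comm]
      refine sum_eq_zero fun i hi => ?_
      rw [← mul_sum, h5 z hz i (mem_range.1 hi), mul_zero]

theorem STG (hSTN : PVH.STN_stmt) : STG_stmt := by
  intro H _ P g hS n v hn hv x hx N
  obtain ⟨n', w, M, h1, h2, h3, h4, h5, h6⟩ := STG_pow hSTN H P g hS x hx N n v hn hv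
  exact ⟨n', w, M, h1, h2, h3, fun j' j hj' hj =>
    le_trans (Nat.lt_pow_self (by norm_num)).le (h4 j' j hj' hj), h5, h6⟩

end Pool.Agent.BND.EX
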